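import Pool.Agent.TOR.StmtsX
import Pool.Agent.Helper99_PW.DER

set_option autoImplicit false

/-!
# Squad TOR, row XFR: the pivot operation in the field of fractions
-/

namespace Pool.Agent.TOR.H13

open MvPolynomial
open Pool.Agent.RS (FF io total numer)
open Pool.Agent.EXP99 (DD lam piv)
open Pool.Agent.PW (dd)

section field

variable {R K : Type} [CommRing R] [Field K] [Algebra R K]

theorem der_quot (δ : Derivation R K K) (x y : K) (hy : y ≠ 0) :
    δ (x / y) = δ x / y - x * δ y / (y * y) := by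
  have h1 : δ (x / y * y) = x / y * δ y + y * δ (x / y) := by
    rw [δ.leibniz, smul_eq_mul, smul_eq_mul]
  rw [div_mul_cancel₀ x hy] at h1
  have h2 : δ (x / y) = (δ x - x / y * δ y) / y := by
    rw [eq_div_iff hy, h1]
    ring
  rw [h2]
  field_simp

/-- logarithmic derivative of a product of powers -/
theorem log_der {N : ℕ} (δ : Derivation R K K) (g : Fin N → K) (ε : Fin N → ℕ)
    (hg : ∀ v, g v ≠ 0) (s : Finset (Fin N)) :
    δ (∏ v ∈ s, g v ^ ε v) = (∏ v ∈ s, g v ^ ε v) * ∑ v ∈ s, (ε v : K) * (δ (g v) / g v) := by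
  classical
  induction s using Finset.induction_on with
  | empty => simp
  | insert a s ha ih =>
    rw [Finset.prod_insert ha, Finset.sum_insert ha, δ.leibniz, smul_eq_mul, smul_eq_mul, ih]
    have h1 : δ (g a ^ ε a) = g a ^ ε a * ((ε a : K) * (δ (g a) / g a)) := by
      rw [δ.leibniz_pow, smul_eq_mul, nsmul_eq_mul]
      rcases Nat.eq_zero_or_pos (ε a) with h | h
      · rw [h]
        simp
      · have h2 : g a ^ ε a = g a ^ (ε a - 1) * g a := by
          rw [← pow_succ, Nat.sub_add_cancel h]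
        rw [h2]
        field_simp [hg a]
    rw [h1]
    ring

/-- the terms of the sum -/
noncomputable def XX {N N' M M' μ : ℕ} (a b : Fin M → K) (a' b' : Fin M' → K) (g : Fin N → K)
    (ε : Fin N → ℕ) (g' : Fin N' → K) (ε' : Fin N' → ℕ) (f : Fin μ → K) (l : Fin μ → ℤ)
    (t : Fin M) (t' : Fin M') (d : K → K) : K :=
  d (a t) * a' t' / (b t * b' t') + -1 * (a t * d (b t) * a' t') / (b t * b t * b' t') +
    -1 * (a t * d (a' t')) / (b t * b' t') + a t * a' t' * d (b' t') / (b t * b' t' * b' t') +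
    (∑ v, (ε v : K) * (a t * a' t' * d (g v)) / (b t * b' t' * g v) +
      (∑ v, -(ε' v : K) * (a t * a' t' * d (g' v)) / (b t * b' t' * g' v) +
        ∑ v, (l v : K) * (a t * a' t' * d (f v)) / (b t * b' t' * f v)))

theorem XX_add {N N' M M' μ : ℕ} (a b : Fin M → K) (a' b' : Fin M' → K) (g : Fin N → K)
    (ε : Fin N → ℕ) (g' : Fin N' → K) (ε' : Fin N' → ℕ) (f : Fin μ → K) (l : Fin μ → ℤ)
    (t : Fin M) (t' : Fin M') (d d' : K → K) :
    XX a b a' b' g ε g' ε' f l t t' (d + d') =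
      XX a b a' b' g ε g' ε' f l t t' d + XX a b a' b' g ε g' ε' f l t t' d' := by
  unfold XX
  simp only [Pi.add_apply, mul_add, add_mul, add_div, Finset.sum_add_distrib]
  ring

theorem XX_sum {N N' M M' μ n : ℕ} (a b : Fin M → K) (a' b' : Fin M' → K) (g : Fin N → K)
    (ε : Fin N → ℕ) (g' : Fin N' → K) (ε' : Fin N' → ℕ) (f : Fin μ → K) (l : Fin μ → ℤ)
    (t : Fin M) (t' : Fin M') (d : Fin n → K → K) :
    XX a b a' b' g ε g' ε' f l t t' (fun x => ∑ j, d j x) =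
      ∑ j, XX a b a' b' g ε g' ε' f l t t' (d j) := by
  have h := map_sum (AddMonoidHom.mk' (XX a b a' b' g ε g' ε' f l t t')
    (XX_add a b a' b' g ε g' ε' f l t t')) d Finset.univ
  have e : (∑ j, d j) = fun x => ∑ j, d j x := by
    funext x
    rw [Finset.sum_apply]
  rw [e] at h
  exact h

theorem main {N N' M M' μ : ℕ} (δ : Derivation R K K) (a b : Fin M → K) (a' b' : Fin M' → K)
    (g : Fin N → K) (ε : Fin N → ℕ) (g' : Fin N' → K) (ε' : Fin N' → ℕ) (f : Fin μ → K)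
    (l : Fin μ → ℤ) (hf : ∀ v, f v ≠ 0) (hg : ∀ v, g v ≠ 0) (hg' : ∀ v, g' v ≠ 0)
    (hb : ∀ t, b t ≠ 0) (hb' : ∀ t, b' t ≠ 0) (A B : K)
    (hA : A = (∏ v, g v ^ ε v) * ∑ t, a t / b t)
    (hB : B = (∏ v, g' v ^ ε' v) * ∑ t, a' t / b' t) :
    (∏ v, f v) * (B * δ A - A * δ B) +
      A * B * ∑ v, (l v : K) * (δ (f v) * ∏ u ∈ Finset.univ.erase v, f u) =
    ((∏ v, f v) * ((∏ v, g v ^ ε v) * ∏ v, g' v ^ ε' v)) *
      ∑ t, ∑ t', XX a b a' b' g ε g' ε' f l t t' δ := by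
  classical
  have hL : ∑ v, (l v : K) * (δ (f v) * ∏ u ∈ Finset.univ.erase v, f u) =
      (∏ v, f v) * ∑ v, (l v : K) * (δ (f v) / f v) := by
    rw [Finset.mul_sum]
    refine Finset.sum_congr rfl fun v _ => ?_
    rw [← Finset.mul_prod_erase Finset.univ f (Finset.mem_univ v)]
    have := hf v
    field_simp
  have hα : δ (∑ t, a t / b t) = ∑ t, (δ (a t) / b t - a t * δ (b t) / (b t * b t)) := by
    rw [map_sum]
    exact Finset.sum_congr rfl fun t _ => der_quot δ _ _ (hb t)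
  have hα' : δ (∑ t, a' t / b' t) = ∑ t, (δ (a' t) / b' t - a' t * δ (b' t) / (b' t * b' t)) := by
    rw [map_sum]
    exact Finset.sum_congr rfl fun t _ => der_quot δ _ _ (hb' t)
  have hdA : δ A = (∏ v, g v ^ ε v) * δ (∑ t, a t / b t) + (∑ t, a t / b t) *
      ((∏ v, g v ^ ε v) * ∑ v, (ε v : K) * (δ (g v) / g v)) := by
    rw [hA, δ.leibniz, smul_eq_mul, smul_eq_mul, log_der δ g ε hg]
  have hdB : δ B = (∏ v, g' v ^ ε' v) * δ (∑ t, a' t / b' t) + (∑ t, a' t / b' t) *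
      ((∏ v, g' v ^ ε' v) * ∑ v, (ε' v : K) * (δ (g' v) / g' v)) := by
    rw [hB, δ.leibniz, smul_eq_mul, smul_eq_mul, log_der δ g' ε' hg']
  rw [hα] at hdA
  rw [hα'] at hdB
  have hX : ∀ t t', XX a b a' b' g ε g' ε' f l t t' δ =
      (a' t' / b' t') * (δ (a t) / b t - a t * δ (b t) / (b t * b t)) -
      (a t / b t) * (δ (a' t') / b' t' - a' t' * δ (b' t') / (b' t' * b' t')) +
      (a t / b t) * (a' t' / b' t') * ((∑ v, (ε v : K) * (δ (g v) / g v)) -
        (∑ v, (ε' v : K) * (δ (g' v) / g' v)) + ∑ v, (l v : K) * (δ (f v) / f v)) := by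
    intro t t'
    have e1 : ∑ v, (ε v : K) * (a t * a' t' * δ (g v)) / (b t * b' t' * g v) =
        (a t / b t) * (a' t' / b' t') * ∑ v, (ε v : K) * (δ (g v) / g v) := by
      rw [Finset.mul_sum]
      refine Finset.sum_congr rfl fun v _ => ?_
      ring
    have e2 : ∑ v, -(ε' v : K) * (a t * a' t' * δ (g' v)) / (b t * b' t' * g' v) =
        - ((a t / b t) * (a' t' / b' t') * ∑ v, (ε' v : K) * (δ (g' v) / g' v)) := by
      rw [Finset.mul_sum, ← Finset.sum_neg_distrib]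
      refine Finset.sum_congr rfl fun v _ => ?_
      ring
    have e3 : ∑ v, (l v : K) * (a t * a' t' * δ (f v)) / (b t * b' t' * f v) =
        (a t / b t) * (a' t' / b' t') * ∑ v, (l v : K) * (δ (f v) / f v) := by
      rw [Finset.mul_sum]
      refine Finset.sum_congr rfl fun v _ => ?_
      ring
    unfold XX
    rw [e1, e2, e3]
    ring
  have hsum : ∑ t, ∑ t', XX a b a' b' g ε g' ε' f l t t' δ =
      (∑ t', a' t' / b' t') * (∑ t, (δ (a t) / b t - a t * δ (b t) / (b t * b t))) -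
      (∑ t, a t / b t) * (∑ t', (δ (a' t') / b' t' - a' t' * δ (b' t') / (b' t' * b' t'))) +
      (∑ t, a t / b t) * (∑ t', a' t' / b' t') * ((∑ v, (ε v : K) * (δ (g v) / g v)) -
        (∑ v, (ε' v : K) * (δ (g' v) / g' v)) + ∑ v, (l v : K) * (δ (f v) / f v)) := by
    have h1 : ∀ t, ∑ t', XX a b a' b' g ε g' ε' f l t t' δ =
        (∑ t', a' t' / b' t') * (δ (a t) / b t - a t * δ (b t) / (b t * b t)) -
        (a t / b t) * (∑ t', (δ (a' t') / b' t' - a' t' * δ (b' t') / (b' t' * b' t'))) +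
        (a t / b t) * (∑ t', a' t' / b' t') * ((∑ v, (ε v : K) * (δ (g v) / g v)) -
        (∑ v, (ε' v : K) * (δ (g' v) / g' v)) + ∑ v, (l v : K) * (δ (f v) / f v)) := by
      intro t
      rw [Finset.sum_congr rfl fun t' _ => hX t t', Finset.sum_add_distrib,
        Finset.sum_sub_distrib, ← Finset.sum_mul, ← Finset.mul_sum, ← Finset.sum_mul,
        ← Finset.mul_sum]
    rw [Finset.sum_congr rfl fun t _ => h1 t, Finset.sum_add_distrib,
      Finset.sum_sub_distrib, ← Finset.mul_sum, ← Finset.sum_mul, ← Finset.sum_mul,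
      ← Finset.sum_mul]
  rw [hL, hdA, hdB, hsum, hA, hB]
  ring

/-- the same for a function -/
theorem main' {K : Type} [Field K] {N N' M M' μ : ℕ} (d : K → K)
    (hadd : ∀ x y, d (x + y) = d x + d y) (hmul : ∀ x y, d (x * y) = x * d y + y * d x)
    (a b : Fin M → K) (a' b' : Fin M' → K)
    (g : Fin N → K) (ε : Fin N → ℕ) (g' : Fin N' → K) (ε' : Fin N' → ℕ) (f : Fin μ → K)
    (l : Fin μ → ℤ) (hf : ∀ v, f v ≠ 0) (hg : ∀ v, g v ≠ 0) (hg' : ∀ v, g' v ≠ 0)
    (hb : ∀ t, b t ≠ 0) (hb' : ∀ t, b' t ≠ 0) (A B : K)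
    (hA : A = (∏ v, g v ^ ε v) * ∑ t, a t / b t)
    (hB : B = (∏ v, g' v ^ ε' v) * ∑ t, a' t / b' t) :
    (∏ v, f v) * (B * d A - A * d B) +
      A * B * ∑ v, (l v : K) * (d (f v) * ∏ u ∈ Finset.univ.erase v, f u) =
    ((∏ v, f v) * ((∏ v, g v ^ ε v) * ∏ v, g' v ^ ε' v)) *
      ∑ t, ∑ t', XX a b a' b' g ε g' ε' f l t t' d := by
  let δ : Derivation ℤ K K :=
    Derivation.mk' (AddMonoidHom.mk' d hadd).toIntLinearMap hmul
  exact main δ a b a' b' g ε g' ε' f l hf hg hg' hb hb' A B hA hB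

end field

theorem cv_C (n : ℕ) (m : ℤ) : cv n (C m) = C (m : ℚ) := by
  show rename _ (map _ (C m)) = _
  rw [map_C, rename_C]
  rfl

theorem cv_pderiv (n : ℕ) (j : Fin n) (G : MvPolynomial (Fin n) ℤ) :
    cv n (pderiv j G) = pderiv (j : ℕ) (cv n G) := by
  show rename _ (map _ (pderiv j G)) = pderiv (j : ℕ) (rename _ (map _ G))
  rw [← pderiv_map, pderiv_rename Fin.val_injective]

/-- the derivation in the direction `β` -/
noncomputable def dl (E : Type) [Field E] (n : ℕ) (β : Fin n → E) (x : FF E) : FF E :=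
  ∑ j : Fin n, io E (C (β j)) * dd (j : ℕ) x

theorem dl_add (E : Type) [Field E] (n : ℕ) (β : Fin n → E) (x y : FF E) :
    dl E n β (x + y) = dl E n β x + dl E n β y := by
  unfold dl
  rw [← Finset.sum_add_distrib]
  refine Finset.sum_congr rfl fun j _ => ?_
  rw [map_add, mul_add]

theorem dl_mul (E : Type) [Field E] (n : ℕ) (β : Fin n → E) (x y : FF E) :
    dl E n β (x * y) = x * dl E n β y + y * dl E n β x := by
  unfold dl
  rw [Finset.mul_sum, Finset.mul_sum, ← Finset.sum_add_distrib]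
  refine Finset.sum_congr rfl fun j _ => ?_
  rw [Derivation.leibniz, smul_eq_mul, smul_eq_mul]
  ring

theorem dd_io' (E : Type) [Field E] (j : ℕ) (p : MvPolynomial ℕ E) :
    dd j (io E p) = io E (pderiv j p) := (Pool.Agent.PW.H99.der E).1 j p

theorem cv_DD (n : ℕ) (β : Fin n → ℤ) (G : MvPolynomial (Fin n) ℤ) :
    io ℚ (cv n (DD β G)) = dl ℚ n (fun j => (β j : ℚ)) (io ℚ (cv n G)) := by
  unfold dl
  rw [Pool.Agent.EXP99.DD_eq_sum, map_sum, map_sum]
  refine Finset.sum_congr rfl fun j _ => ?_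
  rw [dd_io', map_mul, cv_C, cv_pderiv, map_mul]

theorem xfr : XfrStmt := by
  classical
  intro n μ N N' M M' f A B g ε g' ε' a b a' b' β l hf hg hg' hb hb' hA hB
  have hio : ∀ p : MvPolynomial ℕ ℚ, p ≠ 0 → io ℚ p ≠ 0 := by
    intro p hp h
    apply hp
    apply Pool.Agent.RS.io_injective (E := ℚ)
    rw [h, map_zero]
  have hint' : ∀ m : ℤ, io ℚ (C (m : ℚ)) = (m : FF ℚ) := by
    intro m
    rw [show (C (m : ℚ) : MvPolynomial ℕ ℚ) = ((m : ℤ) : MvPolynomial ℕ ℚ) from map_intCast C m]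
    exact map_intCast (io ℚ) m
  have hint : ∀ m : ℤ, io ℚ (cv n (C m)) = (m : FF ℚ) := by
    intro m
    rw [cv_C, hint']
  have hnat : ∀ m : ℕ, io ℚ (C (m : ℚ)) = (m : FF ℚ) := by
    intro m
    rw [show (C (m : ℚ) : MvPolynomial ℕ ℚ) = ((m : ℕ) : MvPolynomial ℕ ℚ) from map_natCast C m]
    exact map_natCast (io ℚ) m
  have h1 := main' (dl ℚ n (fun j => (β j : ℚ))) (dl_add ℚ n _) (dl_mul ℚ n _)
    (fun t => io ℚ (a t)) (fun t => io ℚ (b t)) (fun t => io ℚ (a' t))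
    (fun t => io ℚ (b' t)) (fun v => io ℚ (g v)) ε (fun v => io ℚ (g' v)) ε'
    (fun v => io ℚ (cv n (f v))) l (fun v => hio _ (hf v)) (fun v => hio _ (hg v))
    (fun v => hio _ (hg' v)) (fun t => hio _ (hb t)) (fun t => hio _ (hb' t))
    (io ℚ (cv n A)) (io ℚ (cv n B)) (by rw [hA, map_prod]; simp only [map_pow])
    (by rw [hB, map_prod]; simp only [map_pow])
  have hL : io ℚ (cv n (piv β f l A B)) = (∏ v, io ℚ (cv n (f v))) *
      (io ℚ (cv n B) * dl ℚ n (fun j => (β j : ℚ)) (io ℚ (cv n A)) -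
        io ℚ (cv n A) * dl ℚ n (fun j => (β j : ℚ)) (io ℚ (cv n B))) +
      io ℚ (cv n A) * io ℚ (cv n B) * ∑ v, (l v : FF ℚ) *
        (dl ℚ n (fun j => (β j : ℚ)) (io ℚ (cv n (f v))) *
        ∏ u ∈ Finset.univ.erase v, io ℚ (cv n (f u))) := by
    unfold piv lam
    simp only [map_add, map_mul, map_sub, map_prod, map_sum, cv_DD, hint]
  rw [hL, h1]
  have hP : io ℚ ((∏ v, cv n (f v)) * ((∏ v, g v ^ ε v) * ∏ v, g' v ^ ε' v)) =
      (∏ v, io ℚ (cv n (f v))) * ((∏ v, io ℚ (g v) ^ ε v) * ∏ v, io ℚ (g' v) ^ ε' v) := by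
    simp only [map_mul, map_prod, map_pow]
  rw [hP]
  congr 1
  rw [Fintype.sum_prod_type, Fintype.sum_prod_type]
  refine Finset.sum_congr rfl fun t _ => ?_
  rw [Fintype.sum_prod_type]
  refine Finset.sum_congr rfl fun t' _ => ?_
  have h2 : dl ℚ n (fun j => (β j : ℚ)) =
      fun x => ∑ j : Fin n, (fun x => io ℚ (C (β j : ℚ)) * dd (j : ℕ) x) x := rfl
  rw [h2, XX_sum]
  refine Finset.sum_congr rfl fun j _ => ?_
  rw [Fintype.sum_sum_type, Fin.sum_univ_four, Fintype.sum_sum_type, Fintype.sum_sum_type]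
  unfold XX
  simp only [dd_io', map_mul, hint', hnat, map_neg, map_one]
  refine congrArg₂ (· + ·) ?_ (congrArg₂ (· + ·) ?_ (congrArg₂ (· + ·) ?_ ?_))
  · ring
  · refine Finset.sum_congr rfl fun v _ => ?_
    ring
  · refine Finset.sum_congr rfl fun v _ => ?_
    ring
  · refine Finset.sum_congr rfl fun v _ => ?_
    ring

end Pool.Agent.TOR.H13
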